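import Pool.Agent.R464.GB.Final
import Pool.Agent.R464.GB.Exh
import Pool.Agent.R464.GB.Blk
import Pool.Agent.R464.GB.Bor
import Pool.Agent.R464.GB.Cnt
import Pool.Agent.R464.GB.Adf
import Pool.Agent.R464.GB.Cov
import Pool.Agent.R464.GB.Ppr
import Pool.Agent.R464.GB.Nos
import Pool.Agent.R464.GB.A1
import Pool.Agent.R464.GB.A2
import Pool.Agent.R464.GB.B
import Pool.Agent.R464.GB.Nis
import Pool.Agent.R464.GI.Mod
import Pool.Agent.R464.GI.Cnv
import Pool.Agent.R464.GI.Vhs
import Pool.Agent.R464.GI.Ros
import Pool.Agent.R464.GI.Hel
import Pool.Agent.R464.GI.Gro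

/-!
# Grothendieck spaces `c_{0,I}` from analytic and Borel ideals

There are exactly `2 ^ ℵ₀` isomorphism classes of Grothendieck spaces `c_{0,I}` with `I` an
analytic ideal, and exactly `2 ^ ℵ₀` with `I` a Borel ideal.

The examples are Borel ideals `J_S` (`S` an infinite set of natural numbers): the sets whose
covering numbers in finite blocks `D n`, `n ∈ S`, are small relative to the size of the covering
family of the block.
-/

set_option autoImplicit false

open Pool.Agent.R464 Pool.Agent.R464.GB

namespace Pool.Agent.Results.MP_7e1ced_an.BorelClasses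

/-- There are exactly continuum many classes, under linear homeomorphism, of Grothendieck spaces
`c_{0,I}` with `I` an analytic ideal, and the same holds for Borel ideals. -/
theorem result :
    Cardinal.mk (Quotient (GB.isoSetoid AnalyticIdeal)) = Cardinal.continuum ∧
    Cardinal.mk (Quotient (GB.isoSetoid BorelIdeal)) = Cardinal.continuum :=
  GB.final blkStm borStm cntStm
    (nisStm (a1Stm covStm (nosStm adfStm)) (a2Stm (nosStm adfStm))
      (bStm covStm (nosStm adfStm)))
    (fun b S hS => GI.groStm GI.modStm GI.cnvStm GI.vhsStm GI.helStm GI.complete_X (jdl b S hS)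
      (exhGen GI.rosStm (jdl b S hS) (GB.pprStm covStm b S hS)))

end Pool.Agent.Results.MP_7e1ced_an.BorelClasses
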